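import Mathlib

namespace Pool.Agent.Results.MP_632fda_an.Q1

open LinearMap Finset

/-- The Hilbert space `ℓ²(ℕ)`. -/
noncomputable abbrev H := lp (fun _ : ℕ => ℂ) 2

section
variable {V : Type} [AddCommGroup V] [Module ℂ V]

/-- The ascent of `T` is at most `k`. -/
def Asc (T : V →ₗ[ℂ] V) (k : ℕ) : Prop := ker (T ^ (k + 1)) = ker (T ^ k)

/-- The descent of `T` is at most `k`. -/
def Dsc (T : V →ₗ[ℂ] V) (k : ℕ) : Prop := range (T ^ (k + 1)) = range (T ^ k)

/-- Dimension, in `ℕ ∪ {∞}`. -/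
noncomputable def dim (U : Submodule ℂ V) : ℕ∞ := (Module.rank ℂ U).toENat

/-- The triangular operator matrix. -/
def M (A B C : V →ₗ[ℂ] V) : V × V →ₗ[ℂ] V × V := (A.coprod C).prod (B ∘ₗ snd ℂ V V)
end

section
variable {V : Type} [NormedAddCommGroup V] [InnerProductSpace ℂ V]

/-- `U` is closed. -/
def Cl (U : Submodule ℂ V) : Prop := IsClosed U.carrier

/-- The space `R(A) + N(A^p)`. -/
def SS (A : Module.End ℂ V) (p : ℕ) : Submodule ℂ V := range A ⊔ ker (A ^ p)

/-- The closure of `N(B) ∩ R(B^p)`. -/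
def TT (B : Module.End ℂ V) (p : ℕ) : Submodule ℂ V := (ker B ⊓ range (B ^ p)).topologicalClosure

/-- `C` maps `T` bijectively onto `S^⊥` and vanishes on `T^⊥`. -/
def Glue (S T : Submodule ℂ V) (C : Module.End ℂ V) : Prop :=
  Set.BijOn C T.carrier Sᗮ.carrier ∧ Tᗮ ≤ ker C

/-- Condition (E) holds and `C` is admissible. -/
def Adm (A B C : Module.End ℂ V) (p : ℕ) : Prop :=
  Cl (SS A p) ∧ dim (SS A p)ᗮ = dim (TT B p) ∧ Glue (SS A p) (TT B p) C

/-- The operator `A - l`. -/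
def sh (A : Module.End ℂ V) (l : ℂ) : Module.End ℂ V := A - l • 1

/-- Condition (iii). -/
def III (A B : Module.End ℂ V) : Prop :=
  ∃ δ > 0, ∀ l : ℂ, 0 < ‖l‖ → ‖l‖ < δ → dim (range (sh A l))ᗮ = dim (ker (sh B l))

/-- The hypotheses of Q1 hold with ascent `0`, descent at most `1`, `p = 1`, and `M_C` has no
finite descent. -/
def Hyp (A B C : Module.End ℂ V) : Prop :=
  Asc A 0 ∧ Cl (range A) ∧ Dsc B 1 ∧ III A B ∧ Adm A B C 1 ∧ ¬ ∃ k, Dsc (M A B C) k

/-- There are bounded operators on `V` satisfying `Hyp`. -/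
def Bad (V : Type) [NormedAddCommGroup V] [InnerProductSpace ℂ V] : Prop :=
  ∃ A B C : V →L[ℂ] V, Hyp A.toLinearMap B.toLinearMap C.toLinearMap
end

lemma bd (w : ℕ → ℂ) (σ : ℕ → ℕ) (hw : ∀ i, ‖w i‖ ≤ 1)
    (h : Set.InjOn σ w.support) (x : H) (s : Finset ℕ) :
    ∑ i ∈ s, ‖w i * x (σ i)‖ ^ (2 : ENNReal).toReal ≤ ‖x‖ ^ (2 : ENNReal).toReal := by
  refine le_trans ?_ (lp.sum_rpow_le_norm_rpow (by simp) x ((s.filter (w · ≠ 0)).image σ))
  rw [sum_image (s := s.filter (w · ≠ 0)) fun a ha b hb =>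
    h (mem_filter.1 (mem_coe.1 ha)).2 (mem_filter.1 (mem_coe.1 hb)).2, sum_filter]
  refine sum_le_sum fun i _ => ?_
  split_ifs with e
  · rw [norm_mul]; gcongr; exact mul_le_of_le_one_left (norm_nonneg _) (hw i)
  · simp [not_not.1 e]

noncomputable def W (w : ℕ → ℂ) (σ : ℕ → ℕ) (hw : ∀ i, ‖w i‖ ≤ 1) (h : Set.InjOn σ w.support) :
    H →L[ℂ] H :=
  mkContinuous ⟨⟨fun x => ⟨fun i => w i * x (σ i), memℓp_gen' (bd w σ hw h x)⟩,
    fun x y => by ext; simp [mul_add]⟩, fun c x => by ext; simp [mul_left_comm]⟩ 1 fun x => by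
      rw [one_mul]
      exact lp.norm_le_of_forall_sum_le (by simp) (norm_nonneg _) (bd w σ hw h x)

lemma Wa {w σ hw h} (x : H) (i : ℕ) : W w σ hw h x i = w i * x (σ i) := rfl

lemma n1 (i : ℕ) : ‖((i : ℂ) + 1)⁻¹‖ ≤ 1 := by
  rw [norm_inv]; exact inv_le_one_of_one_le₀ (by norm_cast; simp)

noncomputable def A := W (fun i => if i % 2 = 1 then 1 else 0) (· / 2) (fun i => by split_ifs <;> simp)
  fun i a j b h => by simp at a b h; omega
noncomputable def E := W (fun i => if i % 2 = 1 then 0 else 1) (· / 2) (fun i => by split_ifs <;> simp)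
  fun i a j b h => by simp at a b h; omega
noncomputable def C := W (fun i => if i % 2 = 1 then 0 else 1) id (fun i => by split_ifs <;> simp)
  fun _ _ _ _ h => h
noncomputable def T := W (fun i => if i % 2 = 1 then 0 else (i + 1)⁻¹) id
  (fun i => by split_ifs; exacts [by simp, n1 i]) fun _ _ _ _ h => h
noncomputable def A' := W 1 (2 * · + 1) (by simp) fun i _ j _ h => by simpa using h
noncomputable def B := W (fun i => if i % 2 = 1 then 1 else (i + 1)⁻¹) (2 * · + 1)
  (fun i => by split_ifs; exacts [by simp, n1 i]) fun i _ j _ h => by simpa using h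

lemma d2 (i : ℕ) : (2 * i + 1) / 2 = i := by omega
lemma AA (x : H) : A' (A x) = x := by ext; simp [A, A', Wa, d2]
lemma AE (x : H) : A' (E x) = 0 := by ext; simp [E, A', Wa]
lemma AT (x : H) : A' (T x) = 0 := by ext; simp [T, A', Wa]
lemma BT (x : H) : B (T x) = 0 := by ext; simp [T, B, Wa]
lemma CA (x : H) : C (A x) = 0 := by ext i; by_cases h : i % 2 = 1 <;> simp [A, C, Wa, h]
lemma TA (x : H) : T (A x) = 0 := by ext i; by_cases h : i % 2 = 1 <;> simp [A, T, Wa, h]
lemma d3 {i : ℕ} (h : i % 2 = 1) : 2 * (i / 2) + 1 = i := by omega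
lemma dec (x : H) : A (A' x) + C x = x := by
  ext i; by_cases h : i % 2 = 1
  · simp [A, A', C, Wa, h, d3 h]
  · simp [A, A', C, Wa, h]
lemma BA (x : H) : B (A x) = A (A' x) + T x := by
  ext i; by_cases h : i % 2 = 1
  · simp [A, A', B, T, Wa, h, d2, d3 h]
  · simp [A, A', B, T, Wa, h, d2]
lemma BAA (x : H) : B (A (A' x)) = B x := by ext i; simp [A, A', B, Wa, d2]
lemma kB {x : H} (h : B x = 0) : A' x = 0 := by
  ext i
  have := congrArg (· i) h
  have e : (i : ℂ) + 1 ≠ 0 := by norm_cast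
  by_cases g : i % 2 = 1 <;> simpa [A', B, Wa, g, e] using this
lemma iE : Function.Injective E := (injective_iff_map_eq_zero E).2 fun x h => by
  ext i; simpa [E, Wa] using congrArg (· (2 * i)) h
lemma perp {t : H} (h : A' t = 0) (x : H) : inner ℂ (A x) t = 0 := by
  rw [lp.inner_eq_tsum]
  refine (tsum_congr fun i => ?_).trans tsum_zero
  have := congrArg (· (i / 2)) h
  by_cases g : i % 2 = 1
  · simp only [A', Wa, show 2 * (i / 2) + 1 = i by omega] at this
    simp [show t i = 0 by simpa using this]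
  · simp [A, Wa, g]
lemma rA {x : H} : x ∈ range A.toLinearMap ↔ C x = 0 :=
  ⟨fun ⟨y, h⟩ => h ▸ CA y, fun h => ⟨A' x, by simpa [h] using dec x⟩⟩

lemma inf {U : Submodule ℂ H} (f : H →ₗ[ℂ] H) (h : ∀ x, f x ∈ U) (hf : Function.Injective f) :
    dim U = ⊤ := by
  rw [dim, Cardinal.toENat_eq_top, ← not_lt, Module.rank_lt_aleph0_iff]
  intro _
  have := FiniteDimensional.of_injective (f.codRestrict U h) fun a b e => hf (congrArg Subtype.val e)
  exact Module.Finite.not_linearIndependent_of_infinite _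
    (default : HilbertBasis ℕ ℂ H).orthonormal.linearIndependent

lemma nW {l : ℂ} (l1 : ‖l‖ < 1) {w σ hw h} : ‖l • W w σ hw h‖ < 1 :=
  (norm_smul_le l (W w σ hw h)).trans_lt
    ((mul_le_of_le_one_right (norm_nonneg l) (mkContinuous_norm_le _ zero_le_one _)).trans_lt l1)

lemma inv {S : H →L[ℂ] H} (h : ‖S‖ < 1) : ∃ F : H ≃L[ℂ] H, ∀ x, F x = x - S x :=
  ⟨ContinuousLinearEquiv.unitsEquiv ℂ H (Units.oneSub S h), fun _ => rfl⟩

lemma i1 {l : ℂ} (l0 : l ≠ 0) (l1 : ‖l‖ < 1) : dim (ker (B.toLinearMap - l • 1)) = ⊤ := by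
  obtain ⟨F, hF⟩ := inv (S := l • A) (nW l1)
  refine inf ((A + l⁻¹ • T) ∘L F.symm ∘L E).toLinearMap (fun x => ?_) fun a b e => ?_
  · have := congrArg A' (hF (F.symm (E x)))
    rw [F.apply_symm_apply, map_sub, ContinuousLinearMap.smul_apply, map_smul, AA, AE, eq_comm,
      sub_eq_zero] at this
    change B (A (F.symm (E x)) + l⁻¹ • T (F.symm (E x))) -
      l • (A (F.symm (E x)) + l⁻¹ • T (F.symm (E x))) = 0
    rw [map_add, map_smul, BT, BA, this, smul_add, smul_inv_smul₀ l0]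
    simp
  · have : A' (A (F.symm (E a)) + l⁻¹ • T (F.symm (E a))) =
      A' (A (F.symm (E b)) + l⁻¹ • T (F.symm (E b))) := congrArg A' e
    simp only [map_add, map_smul, AA, AT, smul_zero, add_zero] at this
    exact iE (F.symm.injective this)

lemma i2 {l : ℂ} (l1 : ‖l‖ < 1) : dim (range (A.toLinearMap - l • 1))ᗮ = ⊤ := by
  obtain ⟨G, hG⟩ := inv (S := l • A') (nW l1)
  have ad (v w : H) : inner ℂ (G v) ((G.symm : H →L[ℂ] H).adjoint w) = inner ℂ v w := by
    rw [ContinuousLinearMap.adjoint_inner_right, ContinuousLinearEquiv.coe_coe, G.symm_apply_apply]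
  refine inf ((G.symm : H →L[ℂ] H).adjoint ∘L E).toLinearMap ?_ fun a b e => ?_
  · rintro x _ ⟨y, rfl⟩
    have : A y - l • y = G (A y) := by
      rw [hG, ContinuousLinearMap.smul_apply, AA]
    change inner ℂ (A y - l • y) ((G.symm : H →L[ℂ] H).adjoint (E x)) = 0
    rw [this]
    exact (ad _ _).trans (perp (AE x) y)
  · refine iE (ext_inner_left ℂ fun v => ?_)
    exact (ad _ _).symm.trans ((congrArg (inner ℂ (G v)) e).trans (ad _ _))

lemma hT : (ker B.toLinearMap ⊓ range (B.toLinearMap ^ 1))ᗮ = range A.toLinearMap := by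
  ext y
  refine ⟨fun h => rA.2 ?_, fun ⟨x, e⟩ t ht => e ▸ inner_eq_zero_symm.1 (perp (kB ht.1) x)⟩
  ext i
  have := h (T (lp.single 2 i 1)) ⟨BT _, A (C (lp.single 2 i 1)), by
    ext j; by_cases g : j % 2 = 1 <;> simp [A, B, C, T, Wa, g, d2]⟩
  have e : T (lp.single 2 i 1) = lp.single 2 i (if i % 2 = 1 then 0 else ((i : ℂ) + 1)⁻¹) := by
    ext j; by_cases g : j = i <;> simp [T, Wa, g]
  have e2 : (starRingEnd ℂ) ((i : ℂ) + 1) ≠ 0 := by rw [_root_.map_ne_zero]; norm_cast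
  rw [e, lp.inner_single_left] at this
  by_cases g : i % 2 = 1 <;> simpa [C, Wa, g, e2, -map_add] using this

lemma inj : Function.Injective (M A.toLinearMap B.toLinearMap C.toLinearMap) :=
  (injective_iff_map_eq_zero _).2 fun ⟨x, y⟩ h => by
    have h1 : A x + C y = 0 := congrArg Prod.fst h
    have hy : B y = 0 := congrArg Prod.snd h
    have h2 := dec y
    rw [kB hy, map_zero, zero_add] at h2
    have h3 := congrArg A' h1
    rw [h2, map_add, AA, kB hy, add_zero, map_zero] at h3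
    rw [h2, h3, map_zero, zero_add] at h1
    rw [h1, h3]; rfl

lemma ns : ¬ Function.Surjective B := fun hs => by
  obtain ⟨c, -, hc⟩ := B.exists_preimage_norm_le hs
  obtain ⟨n, hn⟩ := exists_nat_gt c
  obtain ⟨x, h1, h2⟩ := hc (lp.single 2 (2 * n) 1)
  have := congrArg (· (2 * n)) h1
  have e : ((2 * n : ℕ) : ℂ) + 1 ≠ 0 := by norm_cast
  simp only [B, Wa, Nat.mul_mod_right, zero_ne_one, if_false, lp.single_apply_self,
    inv_mul_eq_one₀ e] at this
  have h3 := lp.norm_apply_le_norm two_ne_zero x (2 * (2 * n) + 1)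
  rw [← this] at h3
  norm_cast at h3
  simp at h2 h3
  linarith [n.cast_nonneg (α := ℝ)]

theorem result : Bad H := by
  have kA : ker A.toLinearMap = ⊥ := ker_eq_bot.2 (Function.LeftInverse.injective AA)
  have cl : Cl (range A.toLinearMap) := by
    unfold Cl; convert C.isClosed_ker using 1; ext; exact rA
  have hS : SS A.toLinearMap 1 = range A.toLinearMap := by rw [SS, pow_one, kA, sup_bot_eq]
  have hT2 : TT B.toLinearMap 1 = (SS A.toLinearMap 1)ᗮ := by
    rw [TT, ← Submodule.orthogonal_orthogonal_eq_closure, hT, hS]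
  have hC : ∀ t ∈ (SS A.toLinearMap 1)ᗮ, C t = t := fun t ht => by
    have h := ht (A (A' t)) (Submodule.mem_sup_left ⟨_, rfl⟩)
    have h2 := dec t
    have : inner ℂ (A (A' t)) (C t) = 0 := perp (by ext; simp [A', C, Wa]) _
    rw [← h2, inner_add_right, h2, this, add_zero, inner_self_eq_zero] at h
    rw [h, zero_add] at h2
    exact h2
  refine ⟨A, B, C, by simp [Asc, kA, Module.End.one_eq_id], cl, le_antisymm ?_ ?_,
    ⟨1, one_pos, fun l l0 l1 => (i2 l1).trans (i1 (norm_pos_iff.1 l0) l1).symm⟩,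
    ⟨hS ▸ cl, by rw [hT2], ?_, fun u hu => ?_⟩, fun ⟨k, hk⟩ => ns fun y => ?_⟩
  · rintro _ ⟨x, rfl⟩; exact ⟨B x, rfl⟩
  · rintro _ ⟨x, rfl⟩
    exact ⟨A (A (A' x)), show B (B _) = B x by rw [BA, TA, AA, add_zero, BAA]⟩
  · rw [hT2]
    exact (Set.bijOn_id _).congr fun t ht => (hC t ht).symm
  · rw [TT, Submodule.orthogonal_closure, hT] at hu
    exact rA.1 hu
  · obtain ⟨z, hz⟩ := hk.ge ⟨(0, y), rfl⟩
    rw [pow_succ, Module.End.mul_apply, Module.End.pow_apply, Module.End.pow_apply] at hz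
    exact ⟨z.2, congrArg Prod.snd (inj.iterate k hz)⟩

end Pool.Agent.Results.MP_632fda_an.Q1
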